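import Pool.Agent.Helper60.RT.Defs2

/-!
# Project RT, block D3a: the phase of the member `(r, s)` of the family in the coordinates `A`
-/

open MeasureTheory Real Set Filter Topology

set_option autoImplicit false

namespace Pool.Agent.Helper60.RT

open Pool.Agent.Helper22.AE
open Pool.Agent.Helper92.GC (dt tp Tq uu tt arc dd sqa m6)
open Pool.Agent.Helper92.DT (m12 IsMul12)
open Pool.Agent.Helper60.LT (Fr Tf xf yf df vf fr ac co Cut BB PP)
open Pool.Agent.Helper60.QL (R3 nm pA xA sA TA Cone)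

/-- `T² > 0` -/
theorem T2_pos22 {e : Fr} {t s : ℝ} (ht : l1 e t * l2 e t ≠ 0) : 0 < T2 e t s := by
  have h1 : l1 e t ≠ 0 := left_ne_zero_of_mul ht
  unfold T2
  positivity

/-- `x₈ l₂ - x l₂ = l₁ det / T²` -/
theorem xs_x822 {e : Fr} {t s : ℝ} (ht : l1 e t * l2 e t ≠ 0) :
    e.2.2 - xs e t s * l2 e t = l1 e t * df e / T2 e t s := by
  have hT := T2_pos22 (s := s) ht
  rw [eq_div_iff hT.ne']
  unfold xs
  rw [sub_mul, div_mul_eq_mul_div, div_mul_cancel₀ _ hT.ne']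
  unfold T2 l1 l2 df
  ring

/-- `x l₁ - x₀ l₁ = s² l₂ det / T²` -/
theorem xs_x022 {e : Fr} {t s : ℝ} (ht : l1 e t * l2 e t ≠ 0) :
    xs e t s * l1 e t - e.2.1 = s ^ 2 * (l2 e t * df e) / T2 e t s := by
  have hT := T2_pos22 (s := s) ht
  rw [eq_div_iff hT.ne']
  unfold xs
  rw [sub_mul, div_mul_eq_mul_div, div_mul_cancel₀ _ hT.ne']
  unfold T2 l1 l2 df
  ring

theorem c2_pos22 {e : Fr} (he : 0 < df e) {t s : ℝ} (hs : 0 < s) (ht : l1 e t * l2 e t ≠ 0) :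
    0 < c2 e t s := by
  have hT := T2_pos22 (s := s) ht
  unfold c2
  positivity

/-- the squared height: `(x - x₀) (x₈ - x) = y²` -/
theorem sA_Ar22 {e : Fr} (he : 0 < df e) {r s t : ℝ} (hr : 0 < r) (hs : 0 < s)
    (ht : l1 e t * l2 e t ≠ 0) : sA (em e t (Ar e t (r, s))) = s ^ 2 * df e ^ 2 / T2 e t s ^ 2 := by
  have hT := T2_pos22 (s := s) ht
  have h1 : l1 e t ≠ 0 := left_ne_zero_of_mul ht
  have h2 : l2 e t ≠ 0 := right_ne_zero_of_mul ht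
  have hc := mul_pos hr (c2_pos22 he hs ht)
  have e1 := xs_x822 (s := s) ht
  have e2 := xs_x022 (s := s) ht
  have e3 : x8 e t - xs e t s = l1 e t * df e / (T2 e t s * l2 e t) := by
    unfold x8
    rw [← div_div, ← e1]
    field_simp
  have e4 : xs e t s - x0 e t = s ^ 2 * (l2 e t * df e) / (T2 e t s * l1 e t) := by
    unfold x0
    rw [← div_div, ← e2]
    field_simp
  have e5 : sA (em e t (Ar e t (r, s))) = (xs e t s - x0 e t) * (x8 e t - xs e t s) := by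
    have hc2 := (c2_pos22 he hs ht).ne'
    have hr2 := hr.ne'
    unfold sA em Ar A4
    simp only
    field_simp
    ring
  rw [e5, e3, e4]
  field_simp

theorem xA_Ar22 {e : Fr} (he : 0 < df e) {r s t : ℝ} (hr : 0 < r) (hs : 0 < s)
    (ht : l1 e t * l2 e t ≠ 0) : xA (em e t (Ar e t (r, s))) = xs e t s := by
  have hc2 := (c2_pos22 he hs ht).ne'
  have hr2 := hr.ne'
  unfold xA em Ar
  simp only
  field_simp

theorem TA_Ar22 {e : Fr} (he : 0 < df e) {r s t : ℝ} (hr : 0 < r) (hs : 0 < s)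
    (ht : l1 e t * l2 e t ≠ 0) : TA (em e t (Ar e t (r, s))) = r * √(T2 e t s) := by
  have hT := T2_pos22 (s := s) ht
  have hq : 0 < √(T2 e t s) := sqrt_pos.2 hT
  have h1 : (√(T2 e t s)) ^ 2 = T2 e t s := sq_sqrt hT.le
  unfold TA
  rw [sA_Ar22 he hr hs ht]
  have h2 : (em e t (Ar e t (r, s))).1 = r * c2 e t s := rfl
  rw [h2]
  unfold c2
  have h3 : T2 e t s * √(T2 e t s) * √(T2 e t s) = T2 e t s ^ 2 := by
    rw [mul_assoc, ← sq, h1]
    ring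
  rw [eq_comm, eq_div_iff (by positivity), ← h3]
  field_simp

/-- the length of `k₁ e₁ + k₂ e₂` -/
theorem nm_st22 {e : Fr} {s t : ℝ} (ht : l1 e t * l2 e t ≠ 0) {k : ℤ × ℤ} (hk : 0 < k.1) :
    nm (vf (st s e) k) = k.1 * (√(T2 e t s) * √((1 + xs e t s * (tt 0 k - t)) ^ 2 +
      s ^ 2 * df e ^ 2 / T2 e t s ^ 2 * (tt 0 k - t) ^ 2)) := by
  have hT := T2_pos22 (s := s) ht
  have hk' : (0 : ℝ) < k.1 := by exact_mod_cast hk
  rw [← sqrt_mul hT.le]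
  have h0 : (k.1 : ℝ) = √((k.1 : ℝ) ^ 2) := (sqrt_sq hk'.le).symm
  conv_rhs => rw [h0]
  rw [← sqrt_mul (by positivity)]
  unfold nm
  congr 1
  have htt : tt 0 k - t = (k.2 - t * k.1) / k.1 := by
    have hk2 := hk'.ne'
    unfold tt uu
    rw [zero_mul, add_zero, eq_div_iff hk2, sub_mul, div_mul_cancel₀ _ hk2]
  have hx : xs e t s = (l1 e t * e.2.1 + s ^ 2 * (l2 e t * e.2.2)) / T2 e t s := rfl
  have hid : T2 e t s * (e.2.1 ^ 2 + s ^ 2 * e.2.2 ^ 2) - (l1 e t * e.2.1 + s ^ 2 * (l2 e t * e.2.2)) ^ 2 =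
      s ^ 2 * df e ^ 2 := by
    unfold T2 l1 l2 df
    ring
  have hmain : (k.1 : ℝ) ^ 2 * (T2 e t s * ((1 + xs e t s * (tt 0 k - t)) ^ 2 +
      s ^ 2 * df e ^ 2 / T2 e t s ^ 2 * (tt 0 k - t) ^ 2)) =
      k.1 ^ 2 * T2 e t s + 2 * k.1 * (k.2 - t * k.1) * (l1 e t * e.2.1 + s ^ 2 * (l2 e t * e.2.2)) +
        (k.2 - t * k.1) ^ 2 * (e.2.1 ^ 2 + s ^ 2 * e.2.2 ^ 2) := by
    have h3 : s ^ 2 * df e ^ 2 / T2 e t s ^ 2 = (e.2.1 ^ 2 + s ^ 2 * e.2.2 ^ 2) / T2 e t s - xs e t s ^ 2 := by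
      rw [← hid, hx]
      field_simp
    have h4 : xs e t s * T2 e t s = l1 e t * e.2.1 + s ^ 2 * (l2 e t * e.2.2) := by
      rw [hx, div_mul_cancel₀ _ hT.ne']
    rw [h3, htt, ← h4]
    field_simp
    ring
  rw [hmain]
  unfold vf st T2 l1 l2
  simp only
  ring

/-- D3a: the phase of the member `(r, s)` -/
theorem mr_qr {e : Fr} (he : 0 < df e) {r s t : ℝ} (hr : 0 < r) (hs : 0 < s) (ht : l1 e t * l2 e t ≠ 0) {S : Finset (ℤ × ℤ)} (hS : ∀ k ∈ S, 0 < k.1) :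
    mr S r (st s e) = qr e t S (Ar e t (r, s)) := by
  unfold mr qr
  refine Pool.Agent.Helper92.DT.m12_congr fun k hk => ?_
  congr 1
  rw [nm_st22 ht (hS k hk)]
  unfold pA
  rw [TA_Ar22 he hr hs ht, xA_Ar22 he hr hs ht, sA_Ar22 he hr hs ht]
  have h1 : uu 0 k = k.1 := by unfold uu; ring
  rw [h1]
  ring

end Pool.Agent.Helper60.RT
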