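import Pool.Agent.Helper22.RT.D3a

/-!
# Project RT, block D3d: the region `OR` is measurable, has volume `O(X²)`, and contains neighbourhoods
of the smaller region
-/

open MeasureTheory Real Set Filter Topology

set_option autoImplicit false

namespace Pool.Agent.Helper60.RT

open Pool.Agent.Helper60.LT (Fr Tf xf yf df vf fr ac co Cut BB PP)

/-! ## Uniform bounds -/

/-- upper bound for `T²`, `0 ≤ s ≤ 2 B` -/
noncomputable def Tm22 (e : Fr) (B : ℝ) : ℝ :=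
  (|e.1.1| + 3 * |e.2.1|) ^ 2 + 4 * B ^ 2 * (|e.1.2| + 3 * |e.2.2|) ^ 2 + 1

theorem l1_le22 {e : Fr} {t : ℝ} (ht : |t| ≤ 3) : |l1 e t| ≤ |e.1.1| + 3 * |e.2.1| := by
  unfold l1
  calc |e.1.1 + t * e.2.1| ≤ |e.1.1| + |t * e.2.1| := abs_add_le _ _
    _ ≤ |e.1.1| + 3 * |e.2.1| := by
      rw [abs_mul]
      gcongr

theorem l2_le22 {e : Fr} {t : ℝ} (ht : |t| ≤ 3) : |l2 e t| ≤ |e.1.2| + 3 * |e.2.2| := by
  unfold l2
  calc |e.1.2 + t * e.2.2| ≤ |e.1.2| + |t * e.2.2| := abs_add_le _ _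
    _ ≤ |e.1.2| + 3 * |e.2.2| := by
      rw [abs_mul]
      gcongr

theorem T2_hi22 {e : Fr} {B t s : ℝ} (ht : |t| ≤ 3) (hs : 0 ≤ s) (hs2 : s ≤ 2 * B) :
    T2 e t s ≤ Tm22 e B := by
  unfold T2 Tm22
  have h1 : l1 e t ^ 2 ≤ (|e.1.1| + 3 * |e.2.1|) ^ 2 := by
    rw [← sq_abs (l1 e t)]
    exact pow_le_pow_left₀ (abs_nonneg _) (l1_le22 ht) 2
  have h2 : l2 e t ^ 2 ≤ (|e.1.2| + 3 * |e.2.2|) ^ 2 := by
    rw [← sq_abs (l2 e t)]
    exact pow_le_pow_left₀ (abs_nonneg _) (l2_le22 ht) 2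
  have h3 : s ^ 2 ≤ 4 * B ^ 2 := by nlinarith
  have h4 : s ^ 2 * l2 e t ^ 2 ≤ 4 * B ^ 2 * (|e.1.2| + 3 * |e.2.2|) ^ 2 :=
    mul_le_mul h3 h2 (by positivity) (by positivity)
  linarith

theorem Tm_pos22 (e : Fr) (B : ℝ) : 1 ≤ Tm22 e B := by
  unfold Tm22
  have h1 : 0 ≤ (|e.1.1| + 3 * |e.2.1|) ^ 2 := by positivity
  have h2 : 0 ≤ 4 * B ^ 2 * (|e.1.2| + 3 * |e.2.2|) ^ 2 := by positivity
  linarith

/-- `|e₂|²`, stretched by `B` -/
noncomputable def Eb22 (e : Fr) (B : ℝ) : ℝ := e.2.1 ^ 2 + B ^ 2 * e.2.2 ^ 2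

theorem Eb_pos22 {e : Fr} (he : 0 < df e) {B : ℝ} (hB : 1 ≤ B) : 0 < Eb22 e B := by
  unfold Eb22
  have hB0 : 0 < B := by linarith
  by_contra hcon
  rw [not_lt] at hcon
  have h1 : e.2.1 ^ 2 = 0 := by nlinarith [sq_nonneg e.2.1, mul_nonneg (sq_nonneg B) (sq_nonneg e.2.2)]
  have h2 : B ^ 2 * e.2.2 ^ 2 = 0 := by
    nlinarith [sq_nonneg e.2.1, mul_nonneg (sq_nonneg B) (sq_nonneg e.2.2)]
  have h3 : e.2.1 = 0 := by simpa using h1
  have h4 : e.2.2 = 0 := by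
    rcases mul_eq_zero.1 h2 with h | h
    · exact absurd h (by positivity)
    · simpa using h
  unfold df at he
  rw [h3, h4] at he
  simp at he

theorem key_id22 (e : Fr) (t s : ℝ) : T2 e t s * (e.2.1 ^ 2 + s ^ 2 * e.2.2 ^ 2) =
    (l1 e t * e.2.1 + s ^ 2 * (l2 e t * e.2.2)) ^ 2 + s ^ 2 * df e ^ 2 := by
  unfold T2 l1 l2 df
  ring

/-- lower bound for `T²`, `1/B ≤ s ≤ B` -/
noncomputable def Tl22 (e : Fr) (B : ℝ) : ℝ := df e ^ 2 / (B ^ 2 * Eb22 e B)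

theorem Tl_pos22 {e : Fr} (he : 0 < df e) {B : ℝ} (hB : 1 ≤ B) : 0 < Tl22 e B := by
  have h1 := Eb_pos22 he hB
  unfold Tl22
  positivity

theorem T2_lo22 {e : Fr} (he : 0 < df e) {B t s : ℝ} (hB : 1 ≤ B) (hs : s ∈ Icc B⁻¹ B) :
    Tl22 e B ≤ T2 e t s := by
  have hB0 : 0 < B := by linarith
  have hE := Eb_pos22 he hB
  have hs0 : 0 < s := lt_of_lt_of_le (inv_pos.2 hB0) hs.1
  have hT0 : 0 ≤ T2 e t s := by unfold T2; positivity
  unfold Tl22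
  rw [div_le_iff₀ (by positivity)]
  have h1 : 1 ≤ B ^ 2 * s ^ 2 := by
    have h2 : 1 ≤ B * s := by
      have h3 := mul_le_mul_of_nonneg_left hs.1 hB0.le
      rwa [mul_inv_cancel₀ hB0.ne'] at h3
    nlinarith
  have h2 : e.2.1 ^ 2 + s ^ 2 * e.2.2 ^ 2 ≤ Eb22 e B := by
    unfold Eb22
    have h3 : s ^ 2 ≤ B ^ 2 := pow_le_pow_left₀ hs0.le hs.2 2
    have h4 : s ^ 2 * e.2.2 ^ 2 ≤ B ^ 2 * e.2.2 ^ 2 := mul_le_mul_of_nonneg_right h3 (sq_nonneg _)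
    linarith
  have h5 : s ^ 2 * df e ^ 2 ≤ T2 e t s * Eb22 e B := by
    have h6 := key_id22 e t s
    have h7 := mul_le_mul_of_nonneg_left h2 hT0
    nlinarith [sq_nonneg (l1 e t * e.2.1 + s ^ 2 * (l2 e t * e.2.2))]
  calc df e ^ 2 = 1 * df e ^ 2 := (one_mul _).symm
    _ ≤ B ^ 2 * s ^ 2 * df e ^ 2 := mul_le_mul_of_nonneg_right h1 (sq_nonneg _)
    _ = B ^ 2 * (s ^ 2 * df e ^ 2) := by ring
    _ ≤ B ^ 2 * (T2 e t s * Eb22 e B) := mul_le_mul_of_nonneg_left h5 (sq_nonneg _)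
    _ = T2 e t s * (B ^ 2 * Eb22 e B) := by ring

/-- bound for the shear -/
noncomputable def xu22 (e : Fr) (B : ℝ) : ℝ := Eb22 e B / Tl22 e B + 1

theorem xu_pos22 {e : Fr} (he : 0 < df e) {B : ℝ} (hB : 1 ≤ B) : 1 ≤ xu22 e B := by
  have h1 := Eb_pos22 he hB
  have h2 := Tl_pos22 he hB
  have h3 : 0 < Eb22 e B / Tl22 e B := div_pos h1 h2
  unfold xu22
  linarith

theorem xs_hi22 {e : Fr} (he : 0 < df e) {B t s : ℝ} (hB : 1 ≤ B) (hs : s ∈ Icc B⁻¹ B) :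
    |xs e t s| ≤ xu22 e B := by
  have hB0 : 0 < B := by linarith
  have hE := Eb_pos22 he hB
  have hl := Tl_pos22 he hB
  have hs0 : 0 < s := lt_of_lt_of_le (inv_pos.2 hB0) hs.1
  have hT := T2_lo22 (t := t) he hB hs
  have hT0 : 0 < T2 e t s := hl.trans_le hT
  have h2 : e.2.1 ^ 2 + s ^ 2 * e.2.2 ^ 2 ≤ Eb22 e B := by
    unfold Eb22
    have h3 : s ^ 2 ≤ B ^ 2 := pow_le_pow_left₀ hs0.le hs.2 2
    have h4 : s ^ 2 * e.2.2 ^ 2 ≤ B ^ 2 * e.2.2 ^ 2 := mul_le_mul_of_nonneg_right h3 (sq_nonneg _)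
    linarith
  have h5 : xs e t s ^ 2 ≤ Eb22 e B / Tl22 e B := by
    rw [le_div_iff₀ hl]
    unfold xs
    rw [div_pow, div_mul_eq_mul_div, div_le_iff₀ (by positivity)]
    have h6 := key_id22 e t s
    have h7 := mul_le_mul_of_nonneg_left h2 hT0.le
    have h8 : (l1 e t * e.2.1 + s ^ 2 * (l2 e t * e.2.2)) ^ 2 ≤ T2 e t s * Eb22 e B := by
      nlinarith [mul_nonneg (sq_nonneg s) (sq_nonneg (df e))]
    calc (l1 e t * e.2.1 + s ^ 2 * (l2 e t * e.2.2)) ^ 2 * Tl22 e B ≤ T2 e t s * Eb22 e B * T2 e t s :=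
          mul_le_mul h8 hT hl.le (by positivity)
      _ = Eb22 e B * T2 e t s ^ 2 := by ring
  have h9 : |xs e t s| ≤ xs e t s ^ 2 + 1 := by
    rw [← sq_abs]
    nlinarith [sq_nonneg (|xs e t s| - 1)]
  unfold xu22
  linarith

/-- lower bound for `c₂` -/
noncomputable def cl22 (e : Fr) (B : ℝ) : ℝ := df e ^ 2 / (B ^ 2 * (2 * (Tm22 e B * √(Tm22 e B))))

/-- upper bound for `c₂` -/
noncomputable def cu22 (e : Fr) (B : ℝ) : ℝ := B ^ 2 * df e ^ 2 / (2 * (Tl22 e B * √(Tl22 e B)))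

theorem cl_pos22 {e : Fr} (he : 0 < df e) {B : ℝ} (hB : 1 ≤ B) : 0 < cl22 e B := by
  have h1 : 0 < Tm22 e B := zero_lt_one.trans_le (Tm_pos22 e B)
  have h2 : 0 < √(Tm22 e B) := sqrt_pos.2 h1
  unfold cl22
  positivity

theorem cu_pos22 {e : Fr} (he : 0 < df e) {B : ℝ} (hB : 1 ≤ B) : 0 < cu22 e B := by
  have h1 := Tl_pos22 he hB
  have h2 : 0 < √(Tl22 e B) := sqrt_pos.2 h1
  unfold cu22
  positivity

theorem c2_lo22 {e : Fr} (he : 0 < df e) {B t s : ℝ} (hB : 1 ≤ B) (ht : |t| ≤ 3) (hs : s ∈ Icc B⁻¹ B) :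
    cl22 e B ≤ c2 e t s := by
  have hB0 : 0 < B := by linarith
  have hs0 : 0 < s := lt_of_lt_of_le (inv_pos.2 hB0) hs.1
  have hl := Tl_pos22 he hB
  have hT0 : 0 < T2 e t s := hl.trans_le (T2_lo22 he hB hs)
  have hTm := T2_hi22 (e := e) ht hs0.le (by linarith [hs.2] : s ≤ 2 * B)
  have hTm0 : 0 < Tm22 e B := hT0.trans_le hTm
  have hq : 0 < √(T2 e t s) := sqrt_pos.2 hT0
  have hqm : √(T2 e t s) ≤ √(Tm22 e B) := sqrt_le_sqrt hTm
  have hqm0 : 0 < √(Tm22 e B) := sqrt_pos.2 hTm0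
  have h1 : 1 ≤ B ^ 2 * s ^ 2 := by
    have h2 : 1 ≤ B * s := by
      have h3 := mul_le_mul_of_nonneg_left hs.1 hB0.le
      rwa [mul_inv_cancel₀ hB0.ne'] at h3
    nlinarith
  unfold cl22 c2
  rw [div_le_div_iff₀ (by positivity) (by positivity)]
  have h2 : T2 e t s * √(T2 e t s) ≤ Tm22 e B * √(Tm22 e B) := mul_le_mul hTm hqm hq.le (hT0.le.trans hTm)
  have h3 : 0 < T2 e t s * √(T2 e t s) := by positivity
  calc df e ^ 2 * (2 * (T2 e t s * √(T2 e t s))) = 1 * (df e ^ 2 * (2 * (T2 e t s * √(T2 e t s)))) := (one_mul _).symm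
    _ ≤ (B ^ 2 * s ^ 2) * (df e ^ 2 * (2 * (Tm22 e B * √(Tm22 e B)))) :=
      mul_le_mul h1 (mul_le_mul_of_nonneg_left (by linarith) (sq_nonneg _)) (by positivity) (by positivity)
    _ = s ^ 2 * df e ^ 2 * (B ^ 2 * (2 * (Tm22 e B * √(Tm22 e B)))) := by ring

theorem c2_hi22 {e : Fr} (he : 0 < df e) {B t s : ℝ} (hB : 1 ≤ B) (hs : s ∈ Icc B⁻¹ B) :
    c2 e t s ≤ cu22 e B := by
  have hB0 : 0 < B := by linarith
  have hs0 : 0 < s := lt_of_lt_of_le (inv_pos.2 hB0) hs.1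
  have hl := Tl_pos22 he hB
  have hTl := T2_lo22 (t := t) he hB hs
  have hT0 : 0 < T2 e t s := hl.trans_le hTl
  have hq : 0 < √(Tl22 e B) := sqrt_pos.2 hl
  have hqm : √(Tl22 e B) ≤ √(T2 e t s) := sqrt_le_sqrt hTl
  unfold cu22 c2
  refine div_le_div₀ (by positivity) ?_ (by positivity) ?_
  · exact mul_le_mul_of_nonneg_right (pow_le_pow_left₀ hs0.le hs.2 2) (sq_nonneg _)
  · have := mul_le_mul hTl hqm hq.le hT0.le
    linarith

/-! ## Continuity -/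

theorem T2_cont22 (e : Fr) (t : ℝ) : Continuous fun s => T2 e t s := by
  unfold T2
  fun_prop

theorem xs_cont22 {e : Fr} {t : ℝ} (ht : l1 e t * l2 e t ≠ 0) : Continuous fun s => xs e t s := by
  unfold xs
  exact Continuous.div (by fun_prop) (T2_cont22 e t) fun s => (T2_pos22 ht).ne'

theorem c2_cont22 {e : Fr} {t : ℝ} (ht : l1 e t * l2 e t ≠ 0) : Continuous fun s => c2 e t s := by
  unfold c2
  refine Continuous.div (by fun_prop) ?_ fun s => ?_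
  · exact continuous_const.mul ((T2_cont22 e t).mul (continuous_sqrt.comp (T2_cont22 e t)))
  · have hT := T2_pos22 (s := s) ht
    have : 0 < √(T2 e t s) := sqrt_pos.2 hT
    positivity

theorem Ar_cont22 {e : Fr} {t : ℝ} (ht : l1 e t * l2 e t ≠ 0) : Continuous (Ar e t) := by
  unfold Ar
  have h1 : Continuous fun q : R2 => c2 e t q.2 := (c2_cont22 ht).comp continuous_snd
  have h2 : Continuous fun q : R2 => xs e t q.2 := (xs_cont22 ht).comp continuous_snd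
  exact (continuous_fst.mul h1).prodMk (h2.mul (continuous_fst.mul h1)).neg

theorem OR_meas22 {e : Fr} {t : ℝ} (ht : l1 e t * l2 e t ≠ 0) (B X : ℝ) : MeasurableSet (OR e t B X) :=
  ((isCompact_Icc.prod isCompact_Icc).image (Ar_cont22 ht)).isClosed.measurableSet

/-! ## The volume -/

theorem OR_sub22 {e : Fr} (he : 0 < df e) {B X t : ℝ} (hB : 1 ≤ B) (hX : 0 < X) (hl : l1 e t * l2 e t ≠ 0) :
    OR e t B X ⊆ Icc 0 (B * X * cu22 e B) ×ˢ Icc (-(xu22 e B * (B * X * cu22 e B))) (xu22 e B * (B * X * cu22 e B)) := by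
  rintro A ⟨⟨r, s⟩, ⟨hr, hs⟩, rfl⟩
  have hB0 : 0 < B := by linarith
  have hs0 : 0 < s := lt_of_lt_of_le (inv_pos.2 hB0) hs.1
  have hr0 : 0 < r := lt_of_lt_of_le (by positivity) hr.1
  have hc0 := c2_pos22 he hs0 hl
  have h1 : r * c2 e t s ≤ B * X * cu22 e B := mul_le_mul hr.2 (c2_hi22 he hB hs) hc0.le (by positivity)
  have h2 : |xs e t s * (r * c2 e t s)| ≤ xu22 e B * (B * X * cu22 e B) := by
    rw [abs_mul, abs_of_pos (mul_pos hr0 hc0)]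
    exact mul_le_mul (xs_hi22 he hB hs) h1 (by positivity) (zero_le_one.trans (xu_pos22 he hB))
  have h3 := abs_le.1 h2
  refine ⟨⟨by unfold Ar; positivity, h1⟩, ?_, ?_⟩
  · unfold Ar
    simp only
    linarith [h3.2]
  · unfold Ar
    simp only
    linarith [h3.1]

theorem OR_vol22 {e : Fr} (he : 0 < df e) {B X t : ℝ} (hB : 1 ≤ B) (hX : 0 < X) (hl : l1 e t * l2 e t ≠ 0) :
    volume (OR e t B X) ≤ ENNReal.ofReal ((2 * B ^ 2 * cu22 e B ^ 2 * xu22 e B + 1) * X ^ 2) := by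
  have hcu := cu_pos22 he hB
  have hxu := xu_pos22 he hB
  refine (measure_mono (OR_sub22 he hB hX hl)).trans ?_
  rw [Measure.volume_eq_prod, Measure.prod_prod, Real.volume_Icc, Real.volume_Icc,
    ← ENNReal.ofReal_mul (by rw [sub_zero]; positivity)]
  refine ENNReal.ofReal_le_ofReal ?_
  have : (B * X * cu22 e B - 0) * (xu22 e B * (B * X * cu22 e B) - -(xu22 e B * (B * X * cu22 e B))) =
      2 * B ^ 2 * cu22 e B ^ 2 * xu22 e B * X ^ 2 := by ring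
  rw [this]
  nlinarith [sq_nonneg X]

/-! ## Neighbourhoods -/

/-- the parameter `s'` with shear `x + η` -/
theorem exists_s22 {e : Fr} (he : 0 < df e) {B t s η : ℝ} (hB : 1 ≤ B) (ht : |t| ≤ 3) (hs : s ∈ Icc B⁻¹ B)
    (hl : l1 e t * l2 e t ≠ 0) (h1 : |η| * (2 * (Tm22 e B * ((|e.1.2| + 3 * |e.2.2|) ^ 2 + 1))) ≤ |l1 e t * l2 e t| * df e)
    (h2 : |η| * (40 * B ^ 2 * Tm22 e B ^ 2) ≤ |l1 e t * l2 e t| * df e) :
    ∃ s' ∈ Icc (2 * B)⁻¹ (2 * B), xs e t s' = xs e t s + η ∧ c2 e t s ≤ 5 / 4 * c2 e t s' ∧ c2 e t s' ≤ 5 / 4 * c2 e t s := by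
  have hB0 : 0 < B := by linarith
  have hs0 : 0 < s := lt_of_lt_of_le (inv_pos.2 hB0) hs.1
  have hT := T2_pos22 (s := s) hl
  have hTm := T2_hi22 (e := e) ht hs0.le (by linarith [hs.2] : s ≤ 2 * B)
  have hTm1 := Tm_pos22 e B
  have hL : 0 < |l1 e t * l2 e t| := abs_pos.2 hl
  have hLd : 0 < |l1 e t * l2 e t| * df e := mul_pos hL he
  set Lr := l1 e t * l2 e t * df e with hLr
  have hLabs : |Lr| = |l1 e t * l2 e t| * df e := by rw [hLr, abs_mul, abs_of_pos he]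
  have hl2 : l2 e t ^ 2 ≤ (|e.1.2| + 3 * |e.2.2|) ^ 2 + 1 := by
    have : l2 e t ^ 2 ≤ (|e.1.2| + 3 * |e.2.2|) ^ 2 := by
      rw [← sq_abs (l2 e t)]
      exact pow_le_pow_left₀ (abs_nonneg _) (l2_le22 ht) 2
    linarith
  -- the denominator
  set Dn := Lr - η * T2 e t s * l2 e t ^ 2 with hDn
  have h3 : |η * T2 e t s * l2 e t ^ 2| ≤ |Lr| / 2 := by
    rw [abs_mul, abs_mul, abs_of_pos hT, abs_of_nonneg (sq_nonneg (l2 e t)), hLabs]
    have h4 : T2 e t s * l2 e t ^ 2 ≤ Tm22 e B * ((|e.1.2| + 3 * |e.2.2|) ^ 2 + 1) :=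
      mul_le_mul hTm hl2 (sq_nonneg _) (by linarith)
    have h5 := mul_le_mul_of_nonneg_left h4 (abs_nonneg η)
    linarith
  have h4 : |Lr| / 2 ≤ |Dn| := by
    have h5 : |Lr| ≤ |Dn| + |η * T2 e t s * l2 e t ^ 2| := by
      have h6 : Lr = Dn + η * T2 e t s * l2 e t ^ 2 := by rw [hDn]; ring
      calc |Lr| = |Dn + η * T2 e t s * l2 e t ^ 2| := by rw [← h6]
        _ ≤ _ := abs_add_le _ _
    linarith
  have hDn0 : Dn ≠ 0 := by
    intro h0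
    rw [h0, abs_zero, hLabs] at h4
    linarith
  set Δ := η * T2 e t s ^ 2 / Dn with hΔ
  have hΔb : |Δ| ≤ 1 / (20 * B ^ 2) := by
    rw [hΔ, abs_div, abs_mul, abs_of_nonneg (sq_nonneg (T2 e t s)), div_le_div_iff₀ (abs_pos.2 hDn0) (by positivity)]
    have h5 : T2 e t s ^ 2 ≤ Tm22 e B ^ 2 := pow_le_pow_left₀ hT.le hTm 2
    have h6 : |η| * T2 e t s ^ 2 ≤ |η| * Tm22 e B ^ 2 := mul_le_mul_of_nonneg_left h5 (abs_nonneg _)
    have h7 : |η| * T2 e t s ^ 2 * (20 * B ^ 2) ≤ |η| * Tm22 e B ^ 2 * (20 * B ^ 2) :=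
      mul_le_mul_of_nonneg_right h6 (by positivity)
    rw [hLabs] at h4
    linarith
  have hs2 : 1 / B ^ 2 ≤ s ^ 2 := by
    have h5 : B⁻¹ ^ 2 ≤ s ^ 2 := pow_le_pow_left₀ (inv_pos.2 hB0).le hs.1 2
    rwa [inv_pow, ← one_div] at h5
  have hs3 : s ^ 2 ≤ B ^ 2 := pow_le_pow_left₀ hs0.le hs.2 2
  have hΔs : |Δ| ≤ s ^ 2 / 20 := by
    have h5 : 1 / (20 * B ^ 2) = 1 / B ^ 2 / 20 := by field_simp
    rw [h5] at hΔb
    linarith
  obtain ⟨hΔ1, hΔ2⟩ := abs_le.1 hΔs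
  have hs2p : 0 < s ^ 2 := by positivity
  have hw0 : 0 < s ^ 2 + Δ := by linarith
  have hsq : √(s ^ 2 + Δ) ^ 2 = s ^ 2 + Δ := sq_sqrt hw0.le
  have hTT : T2 e t √(s ^ 2 + Δ) = T2 e t s + Δ * l2 e t ^ 2 := by
    unfold T2
    rw [hsq]
    ring
  -- comparison of `T²`
  have hl22 : s ^ 2 * l2 e t ^ 2 ≤ T2 e t s := by
    unfold T2
    linarith [sq_nonneg (l1 e t)]
  have hTu : T2 e t √(s ^ 2 + Δ) ≤ 21 / 20 * T2 e t s := by
    rw [hTT]
    linarith [mul_le_mul_of_nonneg_right hΔ2 (sq_nonneg (l2 e t))]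
  have hTd : 19 / 20 * T2 e t s ≤ T2 e t √(s ^ 2 + Δ) := by
    rw [hTT]
    linarith [mul_le_mul_of_nonneg_right hΔ1 (sq_nonneg (l2 e t))]
  have hT' : 0 < T2 e t √(s ^ 2 + Δ) := by linarith
  refine ⟨√(s ^ 2 + Δ), ⟨?_, ?_⟩, ?_, ?_, ?_⟩
  · rw [show (2 * B)⁻¹ = √((2 * B)⁻¹ ^ 2) from (sqrt_sq (by positivity)).symm]
    refine sqrt_le_sqrt ?_
    have h5 : (2 * B)⁻¹ ^ 2 = 1 / B ^ 2 / 4 := by field_simp; norm_num
    rw [h5]
    linarith
  · rw [show 2 * B = √((2 * B) ^ 2) from (sqrt_sq (by positivity)).symm]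
    refine sqrt_le_sqrt ?_
    linarith
  · have hx := xs_x822 (s := s) hl
    have hxT : xs e t s * T2 e t s = l1 e t * e.2.1 + s ^ 2 * (l2 e t * e.2.2) := by
      unfold xs
      rw [div_mul_cancel₀ _ hT.ne']
    have hD : Δ * Dn = η * T2 e t s ^ 2 := by rw [hΔ, div_mul_cancel₀ _ hDn0]
    have hgoal : l1 e t * e.2.1 + (s ^ 2 + Δ) * (l2 e t * e.2.2) =
        (xs e t s + η) * (T2 e t s + Δ * l2 e t ^ 2) := by
      have h5 : (e.2.2 - xs e t s * l2 e t) * T2 e t s = l1 e t * df e := by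
        rw [hx, div_mul_cancel₀ _ hT.ne']
      have h6 : Δ * (l2 e t * (e.2.2 - xs e t s * l2 e t)) = η * (T2 e t s + Δ * l2 e t ^ 2) := by
        have h7 : Δ * (l2 e t * (e.2.2 - xs e t s * l2 e t)) * T2 e t s =
            η * (T2 e t s + Δ * l2 e t ^ 2) * T2 e t s := by
          have h8 : Δ * (l2 e t * (e.2.2 - xs e t s * l2 e t)) * T2 e t s = Δ * Lr := by
            rw [hLr]
            linear_combination Δ * l2 e t * h5
          rw [h8]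
          have h9 : Δ * Lr = Δ * Dn + Δ * (η * T2 e t s * l2 e t ^ 2) := by rw [hDn]; ring
          rw [h9, hD]
          ring
        exact mul_right_cancel₀ hT.ne' h7
      linear_combination h6 - hxT
    have hxs : xs e t √(s ^ 2 + Δ) = (l1 e t * e.2.1 + (s ^ 2 + Δ) * (l2 e t * e.2.2)) / T2 e t √(s ^ 2 + Δ) := by
      unfold xs
      rw [hsq]
    rw [hxs, hgoal, hTT, mul_div_cancel_right₀]
    rw [← hTT]
    exact hT'.ne'
  · have hq := sqrt_pos.2 hT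
    have hq' := sqrt_pos.2 hT'
    have hqq : √(T2 e t √(s ^ 2 + Δ)) ≤ 21 / 20 * √(T2 e t s) := by
      rw [show 21 / 20 * √(T2 e t s) = √((21 / 20) ^ 2 * T2 e t s) by
        rw [sqrt_mul (by norm_num), sqrt_sq (by norm_num)]]
      exact sqrt_le_sqrt (by linarith)
    unfold c2
    rw [hsq, mul_div_assoc', div_le_div_iff₀ (by positivity) (by positivity)]
    have h5 : T2 e t √(s ^ 2 + Δ) * √(T2 e t √(s ^ 2 + Δ)) ≤ (21 / 20 * T2 e t s) * (21 / 20 * √(T2 e t s)) :=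
      mul_le_mul hTu hqq hq'.le (by positivity)
    have h6 : s ^ 2 ≤ 20 / 19 * (s ^ 2 + Δ) := by linarith
    have h7 : s ^ 2 * (T2 e t √(s ^ 2 + Δ) * √(T2 e t √(s ^ 2 + Δ))) ≤
        20 / 19 * (s ^ 2 + Δ) * ((21 / 20 * T2 e t s) * (21 / 20 * √(T2 e t s))) :=
      mul_le_mul h6 h5 (by positivity) (by positivity)
    have h8 : 0 < (s ^ 2 + Δ) * (T2 e t s * √(T2 e t s)) := by positivity
    have h9 : 0 ≤ df e ^ 2 := sq_nonneg _
    have h10 : s ^ 2 * (T2 e t √(s ^ 2 + Δ) * √(T2 e t √(s ^ 2 + Δ))) ≤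
        5 / 4 * ((s ^ 2 + Δ) * (T2 e t s * √(T2 e t s))) := by
      refine h7.trans ?_
      have : 20 / 19 * (s ^ 2 + Δ) * ((21 / 20 * T2 e t s) * (21 / 20 * √(T2 e t s))) =
          (20 / 19 * (21 / 20) ^ 2) * ((s ^ 2 + Δ) * (T2 e t s * √(T2 e t s))) := by ring
      rw [this]
      exact mul_le_mul_of_nonneg_right (by norm_num) h8.le
    linarith [mul_le_mul_of_nonneg_left h10 h9]
  · have hq := sqrt_pos.2 hT
    have hq' := sqrt_pos.2 hT'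
    have hTd' : T2 e t s ≤ 20 / 19 * T2 e t √(s ^ 2 + Δ) := by linarith
    have hqq : √(T2 e t s) ≤ 20 / 19 * √(T2 e t √(s ^ 2 + Δ)) := by
      rw [show 20 / 19 * √(T2 e t √(s ^ 2 + Δ)) = √((20 / 19) ^ 2 * T2 e t √(s ^ 2 + Δ)) by
        rw [sqrt_mul (by norm_num), sqrt_sq (by norm_num)]]
      exact sqrt_le_sqrt (by linarith)
    unfold c2
    rw [hsq, mul_div_assoc', div_le_div_iff₀ (by positivity) (by positivity)]
    have h5 : T2 e t s * √(T2 e t s) ≤ (20 / 19 * T2 e t √(s ^ 2 + Δ)) * (20 / 19 * √(T2 e t √(s ^ 2 + Δ))) :=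
      mul_le_mul hTd' hqq hq.le (by positivity)
    have h6 : s ^ 2 + Δ ≤ 21 / 20 * s ^ 2 := by linarith
    have h7 : (s ^ 2 + Δ) * (T2 e t s * √(T2 e t s)) ≤
        21 / 20 * s ^ 2 * ((20 / 19 * T2 e t √(s ^ 2 + Δ)) * (20 / 19 * √(T2 e t √(s ^ 2 + Δ)))) :=
      mul_le_mul h6 h5 (by positivity) (by positivity)
    have h8 : 0 < s ^ 2 * (T2 e t √(s ^ 2 + Δ) * √(T2 e t √(s ^ 2 + Δ))) := by positivity
    have h9 : 0 ≤ df e ^ 2 := sq_nonneg _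
    have h10 : (s ^ 2 + Δ) * (T2 e t s * √(T2 e t s)) ≤
        5 / 4 * (s ^ 2 * (T2 e t √(s ^ 2 + Δ) * √(T2 e t √(s ^ 2 + Δ)))) := by
      refine h7.trans ?_
      have : 21 / 20 * s ^ 2 * ((20 / 19 * T2 e t √(s ^ 2 + Δ)) * (20 / 19 * √(T2 e t √(s ^ 2 + Δ)))) =
          (21 / 20 * (20 / 19) ^ 2) * (s ^ 2 * (T2 e t √(s ^ 2 + Δ) * √(T2 e t √(s ^ 2 + Δ)))) := by ring
      rw [this]
      exact mul_le_mul_of_nonneg_right (by norm_num) h8.le
    linarith [mul_le_mul_of_nonneg_left h10 h9]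

/-- neighbourhoods -/
theorem OR_nbhd22 {e : Fr} (he : 0 < df e) {B : ℝ} (hB : 1 ≤ B) : ∃ c : ℝ, 0 < c ∧ ∀ (X σ t : ℝ), 0 < X →
    |t| ≤ 3 → 0 < σ → σ ≤ |l1 e t * l2 e t| → ∀ A ∈ OR e t B X,
      Metric.closedBall A (c * σ * X) ⊆ OR e t (2 * B) X := by
  have hB0 : 0 < B := by linarith
  have hcl := cl_pos22 he hB
  have hxu := xu_pos22 he hB
  have hTm := Tm_pos22 e B
  set b1 := |e.1.1| + 3 * |e.2.1| with hb1
  set b2 := |e.1.2| + 3 * |e.2.2| with hb2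
  have hb10 : 0 ≤ b1 := by positivity
  have hb20 : 0 ≤ b2 := by positivity
  set κ := min (df e / (2 * (Tm22 e B * (b2 ^ 2 + 1)))) (df e / (40 * B ^ 2 * Tm22 e B ^ 2)) with hκ
  have hκ0 : 0 < κ := lt_min (by positivity) (by positivity)
  set c := min (cl22 e B / (20 * B * (b1 * b2 + 1))) (κ * cl22 e B / (2 * B * (1 + xu22 e B))) with hc
  have hc0 : 0 < c := lt_min (by positivity) (by positivity)
  refine ⟨c, hc0, ?_⟩
  rintro X σ t hX ht hσ hσl A ⟨⟨r, s⟩, ⟨hr, hs⟩, rfl⟩ A' hA'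
  have hl : l1 e t * l2 e t ≠ 0 := by
    intro h0
    rw [h0, abs_zero] at hσl
    linarith
  have hs0 : 0 < s := lt_of_lt_of_le (inv_pos.2 hB0) hs.1
  have hr0 : 0 < r := lt_of_lt_of_le (by positivity) hr.1
  have hc2 := c2_pos22 he hs0 hl
  have hlo := c2_lo22 he hB ht hs
  have hσb : σ ≤ b1 * b2 + 1 := by
    refine hσl.trans ?_
    rw [abs_mul]
    have := mul_le_mul (l1_le22 (e := e) ht) (l2_le22 (e := e) ht) (abs_nonneg _) hb10
    linarith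
  -- the distances
  have hd1 : |A'.1 - r * c2 e t s| ≤ c * σ * X := by
    have h1 : dist A'.1 (Ar e t (r, s)).1 ≤ c * σ * X := (le_max_left _ _).trans hA'
    rwa [Real.dist_eq] at h1
  have hd2 : |A'.2 + xs e t s * (r * c2 e t s)| ≤ c * σ * X := by
    have h1 : dist A'.2 (Ar e t (r, s)).2 ≤ c * σ * X := (le_max_right _ _).trans hA'
    rw [Real.dist_eq] at h1
    have h2 : A'.2 - (Ar e t (r, s)).2 = A'.2 + xs e t s * (r * c2 e t s) := by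
      unfold Ar
      ring
    rwa [h2] at h1
  have hA1 : X * cl22 e B / B ≤ r * c2 e t s := by
    rw [mul_div_right_comm]
    exact mul_le_mul hr.1 hlo hcl.le hr0.le
  have hcσ : c * σ * X ≤ 1 / 20 * (r * c2 e t s) := by
    have h1 : c * σ ≤ cl22 e B / (20 * B) := by
      calc c * σ ≤ cl22 e B / (20 * B * (b1 * b2 + 1)) * (b1 * b2 + 1) :=
            mul_le_mul (min_le_left _ _) hσb hσ.le (by positivity)
        _ = cl22 e B / (20 * B) := by field_simp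
    calc c * σ * X ≤ cl22 e B / (20 * B) * X := mul_le_mul_of_nonneg_right h1 hX.le
      _ = 1 / 20 * (X * cl22 e B / B) := by field_simp
      _ ≤ _ := mul_le_mul_of_nonneg_left hA1 (by norm_num)
  obtain ⟨h1a, h1b⟩ := abs_le.1 hd1
  have hA'u : A'.1 ≤ 21 / 20 * (r * c2 e t s) := by linarith
  have hA'l : 19 / 20 * (r * c2 e t s) ≤ A'.1 := by linarith
  have hrc : 0 < r * c2 e t s := mul_pos hr0 hc2
  have hA'0 : 0 < A'.1 := by linarith
  -- the shear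
  set η := -A'.2 / A'.1 - xs e t s with hη
  have hηe : η = (-(A'.2 + xs e t s * (r * c2 e t s)) - xs e t s * (A'.1 - r * c2 e t s)) / A'.1 := by
    rw [hη, eq_div_iff hA'0.ne', sub_mul, div_mul_cancel₀ _ hA'0.ne']
    ring
  have hηb : |η| ≤ κ * σ := by
    rw [hηe, abs_div, abs_of_pos hA'0, div_le_iff₀ hA'0]
    have h1 : |-(A'.2 + xs e t s * (r * c2 e t s)) - xs e t s * (A'.1 - r * c2 e t s)| ≤
        (1 + xu22 e B) * (c * σ * X) := by
      refine (abs_sub _ _).trans ?_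
      rw [abs_neg, abs_mul]
      have h2 := mul_le_mul (xs_hi22 (t := t) he hB hs) hd1 (abs_nonneg _) (by linarith)
      linarith
    refine h1.trans ?_
    have h2 : (1 + xu22 e B) * c ≤ κ * (cl22 e B / (2 * B)) := by
      calc (1 + xu22 e B) * c ≤ (1 + xu22 e B) * (κ * cl22 e B / (2 * B * (1 + xu22 e B))) :=
            mul_le_mul_of_nonneg_left (min_le_right _ _) (by linarith)
        _ = κ * (cl22 e B / (2 * B)) := by field_simp
    have h3 : X * (cl22 e B / (2 * B)) ≤ A'.1 := by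
      have : X * (cl22 e B / (2 * B)) = 1 / 2 * (X * cl22 e B / B) := by field_simp
      rw [this]
      linarith
    calc (1 + xu22 e B) * (c * σ * X) = (1 + xu22 e B) * c * (σ * X) := by ring
      _ ≤ κ * (cl22 e B / (2 * B)) * (σ * X) := mul_le_mul_of_nonneg_right h2 (by positivity)
      _ = κ * σ * (X * (cl22 e B / (2 * B))) := by ring
      _ ≤ κ * σ * A'.1 := mul_le_mul_of_nonneg_left h3 (by positivity)
  have hηl : |η| ≤ κ * |l1 e t * l2 e t| := hηb.trans (mul_le_mul_of_nonneg_left hσl hκ0.le)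
  have hL0 := abs_nonneg (l1 e t * l2 e t)
  obtain ⟨s', hs', hx', hcc, hcc'⟩ := exists_s22 he hB ht hs hl (η := η) (by
    have h1 : κ * (2 * (Tm22 e B * (b2 ^ 2 + 1))) ≤ df e := by
      rw [← le_div_iff₀ (by positivity)]
      exact min_le_left _ _
    calc |η| * (2 * (Tm22 e B * (b2 ^ 2 + 1))) ≤ κ * |l1 e t * l2 e t| * (2 * (Tm22 e B * (b2 ^ 2 + 1))) :=
          mul_le_mul_of_nonneg_right hηl (by positivity)
      _ = |l1 e t * l2 e t| * (κ * (2 * (Tm22 e B * (b2 ^ 2 + 1)))) := by ring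
      _ ≤ |l1 e t * l2 e t| * df e := mul_le_mul_of_nonneg_left h1 hL0) (by
    have h1 : κ * (40 * B ^ 2 * Tm22 e B ^ 2) ≤ df e := by
      rw [← le_div_iff₀ (by positivity)]
      exact min_le_right _ _
    calc |η| * (40 * B ^ 2 * Tm22 e B ^ 2) ≤ κ * |l1 e t * l2 e t| * (40 * B ^ 2 * Tm22 e B ^ 2) :=
          mul_le_mul_of_nonneg_right hηl (by positivity)
      _ = |l1 e t * l2 e t| * (κ * (40 * B ^ 2 * Tm22 e B ^ 2)) := by ring
      _ ≤ |l1 e t * l2 e t| * df e := mul_le_mul_of_nonneg_left h1 hL0)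
  have hs'0 : 0 < s' := lt_of_lt_of_le (by positivity) hs'.1
  have hc2' := c2_pos22 he hs'0 hl
  refine ⟨(A'.1 / c2 e t s', s'), ⟨⟨?_, ?_⟩, hs'⟩, ?_⟩
  · simp only
    rw [le_div_iff₀ hc2']
    have h1 : X / (2 * B) = 1 / 2 * (X / B) := by field_simp
    rw [h1]
    have h2 : X / B * c2 e t s' ≤ r * c2 e t s' := mul_le_mul_of_nonneg_right hr.1 hc2'.le
    have h3 : r * c2 e t s' ≤ 5 / 4 * (r * c2 e t s) := by
      have := mul_le_mul_of_nonneg_left hcc' hr0.le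
      linarith
    linarith
  · simp only
    rw [div_le_iff₀ hc2']
    have h2 : r * c2 e t s ≤ 5 / 4 * (r * c2 e t s') := by
      have := mul_le_mul_of_nonneg_left hcc hr0.le
      linarith
    have h3 : r * c2 e t s' ≤ B * X * c2 e t s' := mul_le_mul_of_nonneg_right hr.2 hc2'.le
    have h4 : 0 < B * X * c2 e t s' := by positivity
    linarith
  · unfold Ar
    simp only
    rw [div_mul_cancel₀ _ hc2'.ne', hx']
    refine Prod.ext rfl ?_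
    simp only
    rw [hη]
    field_simp
    ring

/-- D3d: measurability, volume, neighbourhoods of the region -/
theorem OR_props {e : Fr} (he : 0 < df e) {B : ℝ} (hB : 1 ≤ B) : ∃ C c : ℝ, 1 ≤ C ∧ 0 < c ∧ ∀ (X σ t : ℝ), 0 < X → |t| ≤ 3 → 0 < σ →
    σ ≤ |l1 e t * l2 e t| → MeasurableSet (OR e t B X) ∧ volume (OR e t B X) ≤ ENNReal.ofReal (C * X ^ 2) ∧
      ∀ A ∈ OR e t B X, Metric.closedBall A (c * σ * X) ⊆ OR e t (2 * B) X := by
  obtain ⟨c, hc, hmain⟩ := OR_nbhd22 he hB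
  have hcu := cu_pos22 he hB
  have hxu := xu_pos22 he hB
  refine ⟨2 * B ^ 2 * cu22 e B ^ 2 * xu22 e B + 1, c, ?_, hc, ?_⟩
  · have : 0 ≤ 2 * B ^ 2 * cu22 e B ^ 2 * xu22 e B := by positivity
    linarith
  intro X σ t hX ht hσ hσl
  have hl : l1 e t * l2 e t ≠ 0 := by
    intro h0
    rw [h0, abs_zero] at hσl
    linarith
  exact ⟨OR_meas22 hl B X, OR_vol22 he hB hX hl, hmain X σ t hX ht hσ hσl⟩

end Pool.Agent.Helper60.RT
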